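import Pool.Agent.helper45.BR.Spec
import Pool.Agent.helper54.CR.Main

set_option autoImplicit false

open Complex Metric Set Filter Topology MeasureTheory MPS Pool.Agent.helper98.ILF
  Pool.Agent.helper16.Multibrot

noncomputable section

namespace BR

lemma MBB_le_two {n : ℕ} (hn : 2 ≤ n) {x : ℝ} (_ : 0 ≤ x) (h : x ^ (n - 1) ≤ 2) : x ≤ 2 := by
  by_contra h2
  push Not at h2
  have h1 : x ^ 1 ≤ x ^ (n - 1) := pow_le_pow_right₀ (by linarith) (by omega)
  rw [pow_one] at h1
  linarith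

theorem MBB : MBB_stmt := by
  intro n c hn
  refine ⟨?_, ?_⟩
  · intro hc
    refine ⟨MBB_le_two hn (norm_nonneg _) (Pool.Agent.LeadMultibrot.norm_pow_le_two hn hc), ?_⟩
    intro k
    have h1 := Pool.Agent.helper54.CR.norm_zz_pow_le hn hc k
    exact MBB_le_two hn (norm_nonneg _) h1
  · rintro ⟨B, hB⟩ ht
    rcases (Filter.tendsto_atTop.mp ht (B + 1)).exists with ⟨k, hk⟩
    have := hB k
    change B + 1 ≤ ‖(fc n c)^[k] 0‖ at hk
    linarith

end BR
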