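import Pool.Agent.helper45.BR.Spec
import Pool.Agent.helper54.CR.Landau

set_option autoImplicit false

open Complex Metric Set Filter Topology MeasureTheory MPS Pool.Agent.helper98.ILF
  Pool.Agent.helper16.Multibrot

noncomputable section

namespace BR

/-- one-variable growth lemma: `g` (complex valued) on `[0,1]` with `‖g'‖ ≤ K ‖g‖ (1 + |log ‖g‖|)`. -/
lemma SCH_growth {g g' : ℝ → ℂ} {M K : ℝ} (hM : 1 ≤ M) (hK : 0 ≤ K)
    (hc : ContinuousOn g (Icc 0 1))
    (hd : ∀ t ∈ Icc (0 : ℝ) 1, HasDerivWithinAt g (g' t) (Icc 0 1) t)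
    (hne : ∀ t ∈ Icc (0 : ℝ) 1, g t ≠ 0)
    (hb : ∀ t ∈ Icc (0 : ℝ) 1, ‖g' t‖ ≤ K * ‖g t‖ * (1 + |Real.log ‖g t‖|))
    (h0 : ‖g 0‖ ≤ M) : ‖g 1‖ ≤ Real.exp (Real.exp K * (1 + Real.log M)) := by
  have hMpos : 0 < M := by linarith
  have hlM : 0 ≤ Real.log M := Real.log_nonneg hM
  have heK : 1 ≤ Real.exp K := Real.one_le_exp hK
  have hMM : M ≤ Real.exp (Real.exp K * (1 + Real.log M)) := by
    calc M = Real.exp (Real.log M) := (Real.exp_log hMpos).symm
      _ ≤ _ := by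
        apply Real.exp_le_exp.mpr
        nlinarith
  by_cases h1 : ‖g 1‖ ≤ M
  · exact h1.trans hMM
  push Not at h1
  -- last time with `‖g‖ ≤ M`
  set S : Set ℝ := {t ∈ Icc (0 : ℝ) 1 | ‖g t‖ ≤ M} with hS
  have hScl : IsClosed S := by
    have : S = Icc (0 : ℝ) 1 ∩ (fun t => ‖g t‖) ⁻¹' Iic M := by
      ext t; simp [hS]
    rw [this]
    exact hc.norm.preimage_isClosed_of_isClosed isClosed_Icc isClosed_Iic
  have hSc : IsCompact S := isCompact_Icc.of_isClosed_subset hScl (fun t ht => ht.1)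
  have hSne : S.Nonempty := ⟨0, ⟨by norm_num, h0⟩⟩
  obtain ⟨t₀, ht₀S, hmax⟩ := hSc.exists_isGreatest hSne
  have ht₀1 : t₀ < 1 := by
    rcases ht₀S.1.2.lt_or_eq with h | h
    · exact h
    · rw [h] at ht₀S
      exact absurd ht₀S.2 (not_le.mpr h1)
  have hbig : ∀ t, t₀ < t → t ≤ 1 → M < ‖g t‖ := by
    intro t ht ht1
    by_contra h
    push Not at h
    have : t ∈ S := ⟨⟨ht₀S.1.1.trans ht.le, ht1⟩, h⟩
    exact absurd (hmax this) (not_le.mpr ht)
  have hsub : Icc t₀ 1 ⊆ Icc (0 : ℝ) 1 := Icc_subset_Icc_left ht₀S.1.1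
  -- at `t₀` the norm equals `M`
  have hge : ∀ t ∈ Icc t₀ 1, M ≤ ‖g t‖ := by
    intro t ht
    rcases ht.1.lt_or_eq with h | h
    · exact (hbig t h ht.2).le
    · rw [← h]
      -- limit from the right
      have hcw : ContinuousWithinAt (fun t => ‖g t‖) (Ioc t₀ 1) t₀ :=
        (hc.norm t₀ ht₀S.1).mono (fun s hs => hsub ⟨hs.1.le, hs.2⟩)
      have hcl : t₀ ∈ closure (Ioc t₀ (1 : ℝ)) := by
        rw [closure_Ioc ht₀1.ne]
        exact ⟨le_rfl, ht₀1.le⟩
      have hev : ∀ᶠ s in 𝓝[Ioc t₀ 1] t₀, M ≤ ‖g s‖ := by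
        filter_upwards [self_mem_nhdsWithin] with s hs
        exact (hbig s hs.1 hs.2).le
      have hnb : (𝓝[Ioc t₀ 1] t₀).NeBot := mem_closure_iff_nhdsWithin_neBot.mp hcl
      exact ge_of_tendsto hcw hev
  -- function `φ t = log (1 + log ‖g t‖) - K t` is antitone on `[t₀, 1]`
  set L : ℝ → ℝ := fun t => Real.log ‖g t‖ with hL
  have hLnn : ∀ t ∈ Icc t₀ 1, 0 ≤ L t := fun t ht => Real.log_nonneg (hM.trans (hge t ht))
  have hgpos : ∀ t ∈ Icc t₀ 1, 0 < ‖g t‖ := fun t ht => lt_of_lt_of_le hMpos (hge t ht)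
  have hLc : ContinuousOn L (Icc t₀ 1) :=
    ContinuousOn.log (hc.mono hsub).norm (fun t ht => (hgpos t ht).ne')
  -- Gronwall via image_le_of_liminf_slope... use derivative of `1 + L`
  have hLd : ∀ t ∈ Ioo t₀ 1, ∃ l : ℝ, HasDerivAt L l t ∧ |l| ≤ K * (1 + L t) := by
    intro t ht
    have htI : t ∈ Icc t₀ 1 := ⟨ht.1.le, ht.2.le⟩
    have ht0 : t ∈ Icc (0 : ℝ) 1 := hsub htI
    have hnb : Icc (0 : ℝ) 1 ∈ 𝓝 t := Icc_mem_nhds (lt_of_le_of_lt ht₀S.1.1 ht.1) ht.2
    have hdt : HasDerivAt g (g' t) t := (hd t ht0).hasDerivAt hnb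
    have hgt : g t ≠ 0 := hne t ht0
    have h2 : HasDerivAt (fun s => ‖g s‖ ^ 2) (2 * inner ℝ (g t) (g' t)) t := hdt.norm_sq
    have h3 : HasDerivAt (fun s => Real.log (‖g s‖ ^ 2)) ((2 * inner ℝ (g t) (g' t)) / ‖g t‖ ^ 2) t :=
      h2.log (by have := hgpos t htI; positivity)
    have h4 : HasDerivAt (fun s => Real.log (‖g s‖ ^ 2) / 2)
        (((2 * inner ℝ (g t) (g' t)) / ‖g t‖ ^ 2) / 2) t := h3.div_const 2
    have h5 : (fun s => Real.log (‖g s‖ ^ 2) / 2) = L := by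
      funext s
      rw [hL, Real.log_pow]
      push_cast
      ring
    rw [h5] at h4
    refine ⟨_, h4, ?_⟩
    have hin : |inner ℝ (g t) (g' t)| ≤ ‖g t‖ * ‖g' t‖ := abs_real_inner_le_norm _ _
    have hp := hgpos t htI
    have hbt := hb t ht0
    have hLt : |Real.log ‖g t‖| = L t := abs_of_nonneg (hLnn t htI)
    rw [hLt] at hbt
    have e1 : ((2 * inner ℝ (g t) (g' t)) / ‖g t‖ ^ 2) / 2 = inner ℝ (g t) (g' t) / ‖g t‖ ^ 2 := by
      ring
    rw [e1, abs_div, abs_of_pos (pow_pos hp 2), div_le_iff₀ (pow_pos hp 2)]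
    calc |inner ℝ (g t) (g' t)| ≤ ‖g t‖ * ‖g' t‖ := hin
      _ ≤ ‖g t‖ * (K * ‖g t‖ * (1 + L t)) := by gcongr
      _ = K * (1 + L t) * ‖g t‖ ^ 2 := by ring
  set φ : ℝ → ℝ := fun t => (1 + L t) * Real.exp (-(K * t)) with hφ
  have hφa : AntitoneOn φ (Icc t₀ 1) := by
    apply antitoneOn_of_deriv_nonpos (convex_Icc _ _)
    · exact (continuousOn_const.add hLc).mul (by fun_prop)
    · rw [interior_Icc]
      intro t ht
      obtain ⟨l, hl, -⟩ := hLd t ht
      apply DifferentiableAt.differentiableWithinAt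
      exact ((differentiableAt_const _).add hl.differentiableAt).mul (by fun_prop)
    · rw [interior_Icc]
      intro t ht
      obtain ⟨l, hl, hlb⟩ := hLd t ht
      have h6 : HasDerivAt φ (l * Real.exp (-(K * t)) + (1 + L t) * (Real.exp (-(K * t)) * (-K))) t := by
        have e2 : HasDerivAt (fun t => Real.exp (-(K * t))) (Real.exp (-(K * t)) * (-K)) t := by
          have := ((hasDerivAt_id t).const_mul K).neg.exp
          simpa using this
        exact (hl.const_add 1).mul e2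
      rw [h6.deriv]
      have hlb' := (abs_le.mp hlb).2
      have hexp := Real.exp_pos (-(K * t))
      nlinarith
  have hfin := hφa (left_mem_Icc.mpr ht₀1.le) (right_mem_Icc.mpr ht₀1.le) ht₀1.le
  have hLt0 : L t₀ ≤ Real.log M := Real.log_le_log (hgpos t₀ (left_mem_Icc.mpr ht₀1.le)) ht₀S.2
  have e3 : Real.exp (-(K * t₀)) ≤ 1 := by
    apply Real.exp_le_one_iff.mpr
    have := mul_nonneg hK ht₀S.1.1
    linarith
  have e4 : (1 + L 1) * Real.exp (-(K * 1)) ≤ 1 + Real.log M := by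
    calc (1 + L 1) * Real.exp (-(K * 1)) ≤ (1 + L t₀) * Real.exp (-(K * t₀)) := hfin
      _ ≤ (1 + L t₀) * 1 := by
        apply mul_le_mul_of_nonneg_left e3
        have := hLnn t₀ (left_mem_Icc.mpr ht₀1.le)
        linarith
      _ ≤ 1 + Real.log M := by linarith
  have e5 : 1 + L 1 ≤ Real.exp K * (1 + Real.log M) := by
    have : (1 + L 1) = Real.exp K * ((1 + L 1) * Real.exp (-(K * 1))) := by
      rw [mul_one, Real.exp_neg]
      field_simp
    rw [this]
    exact mul_le_mul_of_nonneg_left e4 (Real.exp_pos K).le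
  calc ‖g 1‖ = Real.exp (L 1) := (Real.exp_log (hgpos 1 (right_mem_Icc.mpr ht₀1.le))).symm
    _ ≤ _ := by
      apply Real.exp_le_exp.mpr
      linarith

theorem SCH : SCH_stmt := by
  intro M hM
  refine ⟨Real.exp (Real.exp 4000 * (1 + Real.log M)), ?_⟩
  intro F a ρ hρ hF h01 hFa x hx
  -- path
  have hxa : ‖x - a‖ < ρ / 2 := by rwa [mem_ball, dist_eq_norm] at hx
  set y : ℝ → ℂ := fun t => a + t * (x - a) with hy
  have hyb : ∀ t ∈ Icc (0 : ℝ) 1, y t ∈ ball a (ρ / 2) := by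
    intro t ht
    rw [mem_ball, dist_eq_norm, hy]
    simp only [add_sub_cancel_left, norm_mul, Complex.norm_real, Real.norm_eq_abs,
      abs_of_nonneg ht.1]
    calc t * ‖x - a‖ ≤ 1 * ‖x - a‖ := by gcongr; exact ht.2
      _ < ρ / 2 := by linarith
  have hsub2 : ball a (ρ / 2) ⊆ ball a ρ := ball_subset_ball (by linarith)
  have hyd : ∀ t : ℝ, HasDerivAt y (x - a) t := by
    intro t
    have := ((Complex.ofRealCLM.hasDerivAt (x := t)).mul_const (x - a)).const_add a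
    simpa [hy] using this
  have hFd : ∀ t ∈ Icc (0 : ℝ) 1, HasDerivAt (fun s => F (y s)) (deriv F (y t) * (x - a)) t := by
    intro t ht
    have h1 : DifferentiableAt ℂ F (y t) :=
      hF.differentiableAt (isOpen_ball.mem_nhds (hsub2 (hyb t ht)))
    exact h1.hasDerivAt.comp_of_eq t (hyd t) rfl
  have key := SCH_growth (g := fun s => F (y s)) (g' := fun t => deriv F (y t) * (x - a))
    (M := M) (K := 4000) hM (by norm_num)
    (fun t ht => (hFd t ht).continuousAt.continuousWithinAt)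
    (fun t ht => (hFd t ht).hasDerivWithinAt)
    (fun t ht => (h01 _ (hsub2 (hyb t ht))).1) ?_ ?_
  · simpa [hy] using key
  · intro t ht
    have hyt := hyb t ht
    have hb2 : ball (y t) (ρ / 2) ⊆ ball a ρ := by
      intro z hz
      rw [mem_ball] at *
      calc dist z a ≤ dist z (y t) + dist (y t) a := dist_triangle _ _ _
        _ < ρ := by linarith
    have hl := Pool.Agent.helper54.CR.landau (F := F) (w := y t) (ρ := ρ / 2) (by linarith)
      (hF.mono hb2) (fun z hz => (h01 z (hb2 hz)).1) (fun z hz => (h01 z (hb2 hz)).2)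
    have hne : F (y t) ≠ 0 := (h01 _ (hsub2 hyt)).1
    have hpos : 0 < ‖F (y t)‖ := norm_pos_iff.mpr hne
    rw [norm_div, div_le_iff₀ hpos] at hl
    rw [norm_mul]
    have hLn : 0 ≤ 1 + |Real.log ‖F (y t)‖| := by positivity
    calc ‖deriv F (y t)‖ * ‖x - a‖ ≤ (4000 / (ρ / 2) * (1 + |Real.log ‖F (y t)‖|) * ‖F (y t)‖) * (ρ / 2) := by
          gcongr
      _ = 4000 * ‖F (y t)‖ * (1 + |Real.log ‖F (y t)‖|) := by
          field_simp
  · simpa [hy] using hFa

end BR
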