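import Mathlib
import Pool.Agent.helper70.BR.DefsT
import Pool.Agent.helper59.FI.SpecB
import Pool.Agent.helper58.FI.SpecC
import Pool.Agent.helper68.BP.FRB
import Pool.Agent.helper68.BP.PWL
import Pool.Agent.helper68.BP.UPS

/-!
# Project BR (MP_baa4d7_al), block BP, ABELIAN STEP (row ABL): Broué-Puig integrality on an abelian `p`-subgroup

OUTPUT: `ABL_stmt` of `helper70/BR/DefsT`. For an abelian `p`-subgroup `A`, `w ∈ cz A`, and a linear character `κ` of `A` the mean over `A` of `κ u * TH l ψ u w` is integral at `p`. No primitive idempotents, no pairs poset.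

NOTATION. `TH l ψ u w`: the value at `u w` of `l^I * ψ`. `BB M K`: the block idempotents of `K`, `rep M K e ∈ IrrOn K` a character of the block of `e`. `Lam u η` (`η ∈ IrrOn (cz S)`, `u ∈ S`): `∑_{τ ∈ T / cz D} l (τ g u g⁻¹ τ⁻¹)` if `g` maps `(S, b(η))` into `(D, b(θ))`, `0` otherwise (LAM). `st A t = C_A(t)` for a tuple `t`.
`Wt S u t = ∑_{e ∈ BB (cz S)} Lam u e * ∏ e (t i)`.

PROOF. `q = p ^ N`, `N` large. (THB) `TH u w = ∑_{e ∈ BB (Cz ⊤ u)} Lam u e * ev ψ e (u w)`, and `e = cvp e q = ∑_t ∏ e (t i) [t_1 ⋯ t_q]` (TUP). So `∑_{u ∈ A} k u * TH u w = ∑_{S ≤ A} F(S)`, `F(S) = ∑_{t : st A t = S} ∑_{u ∈ S} k u * Wt (zpowers u) u t * ψ (u w t_1 ⋯ t_q)`. (ABS) `F(S)` is, modulo `p ^ r`, the same sum with `Wt S u t`: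
for every `S' ≥ S` the sums over all `t` with `S' ≤ st A t`, that is `t ∈ (cz S')^q`, are congruent: both are `∑_{u ∈ S} k u * ∑_{η' ∈ IrrOn (cz S')} Lam u η' * ev ψ (eS (cz S') {η'}) (u w)`, since `e` restricted to `cz S'` is modulo `M` the sum of the block idempotents of `cz S'` over `e` (EQR), and a `p ^ N`-th power of it tends to this
sum (PWL) (UPR); equal upper sums on the subgroups between `S` and `A` give equal values (UPS). (ABD) `∑_{t : st A t = S} ∑_{u ∈ S} k u * Wt S u t * ψ (u w t_1 ⋯ t_q)` is `|A|` times `IntAt`: `A` acts on these `t` by conjugation with stabilisers `S`, the summand is invariant, and it is `|S|` times `IntAt` (LLI).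

RULES. File `Pool/Agent/<seat>/BR/XXX.lean` with

  import Pool.Agent.helper24.BR.SpecA
  set_option autoImplicit false
  namespace Pool.Agent.BR
  open Pool.Agent.helper58.DC Pool.Agent.DI Pool.Agent.GR Pool.Agent.OB Pool.Agent.DR Pool.Agent.FI Pool.Agent.FI3 Pool.Agent.FI4 Pool.Agent.LE
  theorem XXX (hYYY : YYY_stmt) ... : XXX_stmt := ...
  end Pool.Agent.BR

auxiliary lemmas prefixed `XXX_`, no sorry, no double quotes in the file, no `convert`, no `congr!`. The rows named in the docstring are hypotheses; all rows of the older specs (proved, no circles) may be added as further hypotheses: GR, DI, OB, FI (`helper22/FI/SpecA`: BLE SBI EXB TPR MLT ..; `helper59/FI/SpecB`: EQR; `helper83/FI/SpecR`: EVF EVM ..;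
`helper70/FI/SpecQ1`: QEV QRS QEI ..; `helper58/FI/SpecC`: FEQ FSI FOV ..), FI4 (`helper59/FI4/SpecP4`: QFU4 ..). Ready lemmas: `helper59/FI/Base` (`SB_conj SB_inner TRNb funMap_mul mem_Cz cz_mono ..`), `cz_zp` of `helper70/LZ/SpecZ`, `FRB_orb` of `helper68/BP/FRB`, `PWL` of `helper68/BP/PWL` (hypothesis `PRD_stmt`), `UPS` of `helper68/BP/UPS`, and `TUF` at the end of section 1 of this file (tuples).
-/

set_option autoImplicit false

namespace Pool.Agent.BR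

open Pool.Agent.helper58.DC Pool.Agent.DI Pool.Agent.GR Pool.Agent.OB Pool.Agent.DR Pool.Agent.FI Pool.Agent.FI3 Pool.Agent.FI4 Pool.Agent.LE

section

variable {G : Type} [Group G]

open Classical in
/-- `l` extended by zero. -/
noncomputable def lx (D : Subgroup G) (l : D →* ℂˣ) (v : G) : ℂ := if h : v ∈ D then ((l ⟨v, h⟩ : ℂˣ) : ℂ) else 0

/-- The block idempotents of `K`. -/
def BB (M : Ideal (integralClosure ℤ ℂ)) (K : Subgroup G) : Set (G → ℂ) := {e | ∃ η ∈ IrrOn K, eS K (Bl M K η) = e}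

open Classical in
/-- A character of the block of `e`. -/
noncomputable def rep (M : Ideal (integralClosure ℤ ℂ)) (K : Subgroup G) (e : G → ℂ) : G → ℂ :=
  if h : ∃ η ∈ IrrOn K, eS K (Bl M K η) = e then h.choose else 0

/-- The weight of `u` and the block of `η`. -/
noncomputable def Lam (M : Ideal (integralClosure ℤ ℂ)) (D : Subgroup G) (θ : G → ℂ) (l : D →* ℂˣ) (u : G) (η : G → ℂ) : ℂ :=
  ∑ᶠ t ∈ {t : G | SB M (Cz (⊤ : Subgroup G) u) η (cjF t⁻¹ θ)},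
    ci M D θ (t * u * t⁻¹) / Nat.card (Cz (⊤ : Subgroup G) u) * lx D l (t * u * t⁻¹)

/-- `k` is a linear character on `A`. -/
def LC (A : Subgroup G) (k : G → ℂ) : Prop := k 1 = 1 ∧ ∀ u ∈ A, ∀ v ∈ A, k (u * v) = k u * k v

/-- The centraliser in `A` of a tuple. -/
def st (A : Subgroup G) {q : ℕ} (t : Fin q → G) : Subgroup G := A ⊓ Subgroup.centralizer (Set.range t)

/-- The weight of a tuple. -/
noncomputable def Wt (M : Ideal (integralClosure ℤ ℂ)) (D : Subgroup G) (θ : G → ℂ) (l : D →* ℂˣ) (S : Subgroup G) (u : G) {q : ℕ}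
    (t : Fin q → G) : ℂ :=
  ∑ᶠ e ∈ BB M (cz S), Lam M D θ l u (rep M (cz S) e) * ∏ i, e (t i)

end

/-! ## 1. Pure part -/

open Classical in
/-- Powers and tuples (from TUP of helper68). -/
theorem TUF {G : Type} [Group G] [Finite G] (ψ a : G → ℂ) (q : ℕ) (g : G) :
    ev ψ (cvp a q) g = ∑ᶠ t : Fin q → G, (∏ i, a (t i)) * ψ (g * (List.ofFn t).prod) := by
  let _ : Fintype G := Fintype.ofFinite G
  unfold ev
  rw [finsum_eq_sum_of_fintype, finsum_eq_sum_of_fintype]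
  calc ∑ x, cvp a q x * ψ (g * x) = ∑ x, ∑ t : Fin q → G, (if tpr t = x then ∏ i, a (t i) else 0) * ψ (g * x) := by
        refine Finset.sum_congr rfl fun x _ => ?_
        rw [TUP, Finset.sum_mul]
    _ = ∑ t : Fin q → G, ∑ x, (if tpr t = x then ∏ i, a (t i) else 0) * ψ (g * x) := Finset.sum_comm
    _ = _ := by
        refine Finset.sum_congr rfl fun t _ => ?_
        rw [Finset.sum_eq_single (tpr t)]
        · rw [if_pos rfl]; rfl
        · intro x _ hx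
          rw [if_neg (Ne.symm hx), zero_mul]
        · intro h
          exact absurd (Finset.mem_univ _) h

/-- **SPC** (short to medium; from QEV; pure). Means of characters. Proof: `i x = k x / |S|` for `x ∈ S` and `0` otherwise: `cv i i = i`, `Inv (zpowers c) i` (`c` commutes with `S`), `i` is supported on `⊤`. QEV (`H = ⊤`, `H' = zpowers c`): `ev ψ i c = ∑ (m ψ') ψ' c` is an algebraic integer (values of characters), and `ev ψ i c = ∑_{u ∈ S} k u / |S| * ψ (c * u)`, `c * u = u * c`. -/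
def SPC_stmt : Prop :=
  ∀ (G : Type) [Group G] [Finite G] (S : Subgroup G) (k : G → ℂ), LC S k → ∀ c ∈ cz S, ∀ ψ ∈ IrrOn (⊤ : Subgroup G),
    IsIntegral ℤ ((∑ᶠ u ∈ (S : Set G), k u * ψ (u * c)) / Nat.card S)

/-! ## 2. Blocks and weights -/

/-- **REP** (short to medium; from IDM, EIN, BLE, FBC or `BC_Bl`). The block idempotents. Proof: (1) `IrrOn K` is finite. (2) definition of `rep` (`Exists.choose_spec`). (3) if the idempotents are equal then `cc η (eS K (Bl M K η')) = cc η (eS K (Bl M K η)) = 1`, so `η ∈ Bl M K η'` (IDM / BLE); conversely the sets `Bl M K η`, `Bl M K η'` are equal. (4) BLE with `L = K`.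
(5) group the sum over `IrrOn K` by blocks: the fibre of `η ↦ eS K (Bl M K η)` over `e` is `Bl M K (rep M K e)` (3), `c` is constant on it and `eS K` is additive over disjoint finite sets (definition of `eS`). -/
def REP_stmt : Prop :=
  ∀ (p : ℕ) (M : Ideal (integralClosure ℤ ℂ)), Setup p M → ∀ (G : Type) [Group G] [Finite G] (K : Subgroup G),
    (BB M K).Finite ∧
    (∀ e ∈ BB M K, rep M K e ∈ IrrOn K ∧ eS K (Bl M K (rep M K e)) = e) ∧
    (∀ η ∈ IrrOn K, ∀ η' ∈ IrrOn K, (eS K (Bl M K η) = eS K (Bl M K η') ↔ SB M K η η')) ∧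
    (∀ e ∈ BB M K, CF K e ∧ (∀ x, x ∉ K → e x = 0) ∧ (∀ x, IntAt M (e x)) ∧ cv e e = e) ∧
    ∀ c : (G → ℂ) → ℂ, (∀ η ∈ IrrOn K, ∀ η' ∈ IrrOn K, SB M K η η' → c η = c η') →
      ∀ x, ∑ᶠ e ∈ BB M K, c (rep M K e) * e x = ∑ᶠ η ∈ IrrOn K, c η * eS K {η} x

/-- **LAM** (medium; from QFU4, EXB, TPR, FSI, FEQ, and `LoA.con`; compare ZCT, `Pool/Agent/*/LZ/ZCT.lean`). The weights. Proof. (1) `Induces M η χ` (TPR, FSI; `Rt.ind`), so `con` gives `g` with `cjS g S ≤ D` and `SB M (cz (cjS g S)) θ (cjF g η)`. Let `u ∈ S`, `v = g u g⁻¹ ∈ D`, `K = Cz ⊤ v = cjS g (Cz ⊤ u)`; `cz (cjS g S) ≤ K`, so `SB M K θ (cjF g η)` (TRNb).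
With `t' = t g⁻¹`: `t u t⁻¹ = t' v t'⁻¹` and `SB M (Cz ⊤ u) η (cjF t⁻¹ θ)` iff `SB M K (cjF g η) (cjF t'⁻¹ θ)` iff `SB M K θ (cjF t'⁻¹ θ)`. The set `Z` of the `t'` with this and `t' v t'⁻¹ ∈ D` is `T K`: QFU4 (`P = ⊥`, `cz ⊥ = ⊤`, `u = v`, `l = t'`, `ψ ∈ IrrOn K` with `SB M K θ ψ`, EXB; conjugate the condition by `t'`) gives `k ∈ Cz ⊤ (t' v t'⁻¹)`, `τ = k t' ∈ T`,
and `t' = τ (τ⁻¹ k⁻¹ τ)`, `τ⁻¹ k⁻¹ τ ∈ K`; conversely clear (`SB_inner`). The map `T × K → T K` has all fibres of `|T ⊓ K| = |Cz T v|` elements, and for `t' = τ c`: `t' v t'⁻¹ = τ v τ⁻¹`, `ci (τ v τ⁻¹) = ci v = |Cz T v| / |cz D|`, `|Cz ⊤ u| = |K|`. So `Lam = ∑_{t' ∈ Z} .. = |Cz T v|⁻¹ ∑_{τ ∈ T} ∑_{c ∈ K} (|Cz T v| / |cz D|) / |K| * l (τ v τ⁻¹)`.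
(The `t'` with `t' v t'⁻¹ ∉ D` contribute `0`: `lx`.) (2) if a term is not `0` then `t u t⁻¹ ∈ D`, `cz (cjS t⁻¹ D) ≤ Cz ⊤ u`, and `SB M (Cz ⊤ u) η (cjF t⁻¹ θ)` gives `SB M ⊤ η (cjF t⁻¹ θ)` (FSI (1) / TRNb), `SB M ⊤ η θ` (`SB_inner`), excluded. -/
def LAM_stmt : Prop :=
  ∀ (p : ℕ) (M : Ideal (integralClosure ℤ ℂ)), Setup p M → ∀ (G : Type) [Group G] [Finite G]
    (D : Subgroup G) (x : G) (θ χ : G → ℂ), LoA p M D x θ χ → ∀ l : D →* ℂˣ, ∀ S : Subgroup G, IsPGroup p S →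
    (∀ a ∈ S, ∀ b ∈ S, a * b = b * a) → ∀ η ∈ IrrOn (cz S),
    (SB M (⊤ : Subgroup G) η θ → ∃ g : G, cjS g S ≤ D ∧ ∀ u ∈ S, Lam M D θ l u η =
      (∑ᶠ τ ∈ (TT M D θ : Set G), lx D l (τ * (g * u * g⁻¹) * τ⁻¹)) / Nat.card (cz D)) ∧
    (¬ SB M (⊤ : Subgroup G) η θ → ∀ u ∈ S, Lam M D θ l u η = 0)

/-- **LLI** (short to medium; from LAM, SPC). Proof: if not `SB M ⊤ η θ` all is `0`. Otherwise `g` from LAM. For `τ ∈ T` the function `k_τ u = lx D l (τ g u g⁻¹ τ⁻¹)` satisfies `LC S k_τ` (`g S g⁻¹ ≤ D`, `τ ∈ nz D`), its values at `u ∈ S` are roots of unity. (1) `Lam u η = |cz D|⁻¹ ∑_{τ ∈ T} k_τ u`; `k_(τ c) = k_τ` on `S` for `c ∈ cz D`: `FRB_orb` for the action of `cz D` on `T` by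
`τ ↦ τ c⁻¹` (free), or a sum over representatives of `T / cz D` (`cz_le_TT`). (2) the number is `|cz D|⁻¹ ∑_{τ ∈ T} J τ`, `J τ = |S|⁻¹ ∑_{u ∈ S} k u * k_τ u * ψ (u c)` integral by SPC (`LC S (k * k_τ)`), `J (τ c') = J τ` for `c' ∈ cz D`. -/
def LLI_stmt : Prop :=
  ∀ (p : ℕ) (M : Ideal (integralClosure ℤ ℂ)), Setup p M → ∀ (G : Type) [Group G] [Finite G]
    (D : Subgroup G) (x : G) (θ χ : G → ℂ), LoA p M D x θ χ → ∀ l : D →* ℂˣ, ∀ S : Subgroup G, IsPGroup p S →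
    (∀ a ∈ S, ∀ b ∈ S, a * b = b * a) → ∀ η ∈ IrrOn (cz S),
    (∀ u ∈ S, IntAt M (Lam M D θ l u η)) ∧
    ∀ k : G → ℂ, LC S k → ∀ c ∈ cz S, ∀ ψ ∈ IrrOn (⊤ : Subgroup G),
      IntAt M ((∑ᶠ u ∈ (S : Set G), k u * Lam M D θ l u η * ψ (u * c)) / Nat.card S)

/-- **THB** (medium; from REP, EXB, FEQ, EVF, QEB). `TH` by blocks. Proof: `K = Cz ⊤ u`. For `t` with `v = t u t⁻¹ ∈ D`: `Cz ⊤ v = cjS t K`, and the function `x ↦ eS (Cz ⊤ v) (Bl M (Cz ⊤ v) θ) (t x t⁻¹)` is `e_t := eS K (Bl M K (cjF t⁻¹ θ))` (FEQ / CJG: `Bl` and `eS` under conjugation), so by EVF (last item, `H = ⊤`) the factor `ev ψ (..) (t (u w) t⁻¹)` is `ev ψ e_t (u w)`.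
`D' = cjS t⁻¹ D ∋ u`, `cz D' ≤ K`, `D' ≤ K`: EXB (`L = K`, `Q = D'`, `cjF t⁻¹ θ ∈ IrrOn (cz D')`, `K ⊓ cz D' = cz D'`) gives `ψ' ∈ IrrOn K` with `SB M K (cjF t⁻¹ θ) ψ'`, so `e_t = eS K (Bl M K ψ') ∈ BB M K` and (REP (3)) for `e ∈ BB M K`: `e = e_t` iff `SB M K (rep M K e) (cjF t⁻¹ θ)`. So `∑_t X_t * ev ψ e_t (u w) = ∑_{e ∈ BB M K} (∑_{t : SB M K (rep e) (cjF t⁻¹ θ)} X_t) * ev ψ e (u w)`,
`X_t = ci / |K| * lx` (it is `0` if `t u t⁻¹ ∉ D`). -/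
def THB_stmt : Prop :=
  ∀ (p : ℕ) (M : Ideal (integralClosure ℤ ℂ)), Setup p M → ∀ (G : Type) [Group G] [Finite G]
    (D : Subgroup G) (x : G) (θ χ : G → ℂ), LoA p M D x θ χ → ∀ l : D →* ℂˣ, ∀ ψ ∈ IrrOn (⊤ : Subgroup G), ∀ u w : G, w ∈ Cz (⊤ : Subgroup G) u →
    TH M D θ l ψ u w = ∑ᶠ e ∈ BB M (Cz (⊤ : Subgroup G) u), Lam M D θ l u (rep M (Cz (⊤ : Subgroup G) u) e) * ev ψ e (u * w)

/-- **UPR** (medium; from PWL, EQR, BLE, REP, LLI, EXB, CVF). The upper sums. Proof: `K = cz S`, `K' = cz S' ≤ K`; `S' ≤ K` is abelian, `K ⊓ cz S' = K'`. Let `e ∈ BB M K`, `a = rsk K' e`, `f = eS K' (Bq M K K' (rep M K e))`: `InM M (a x - f x)` (EQR with `L = H = K`, `Q = S'`, `φ = rep M K e`; outside of `K'` both are `0`), `cv f f = f`, `f` is a class function of `K'` with `IntAt` values (BLE with `L = K`), so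
`cv a f = cv f a` (CVF). PWL: `N₀`, for all (finitely many) `e` at once; `ev ψ (cvp a (p ^ N)) g - ev ψ f g` is `Small` (the values of `ψ` are integral), also after multiplication by `Lam u (rep M K e)`, `IntAt` by LLI. Finally `∑_{e ∈ BB M K} Lam u (rep e) * ev ψ (eS K' (Bq M K K' (rep e))) g = ∑_{η' ∈ IrrOn K'} Lam u η' * ev ψ (eS K' {η'}) g`:
for `η' ∈ IrrOn K'` there is exactly one `e ∈ BB M K` with `SB M K η' (rep e)` (EXB with `L = K`, `Q = S'`; REP (3)), and then `Lam u η' = Lam u (rep e)`, because `K ≤ Cz ⊤ u`, so `SB M (Cz ⊤ u) η' (rep e)` (TRNb) and the two sets of the `t` are equal; `eS K'` is additive. -/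
def UPR_stmt : Prop :=
  ∀ (p : ℕ) (M : Ideal (integralClosure ℤ ℂ)), Setup p M → ∀ (G : Type) [Group G] [Finite G]
    (D : Subgroup G) (x : G) (θ χ : G → ℂ), LoA p M D x θ χ → ∀ l : D →* ℂˣ, ∀ ψ ∈ IrrOn (⊤ : Subgroup G), ∀ S S' : Subgroup G, S ≤ S' →
    IsPGroup p S' → (∀ a ∈ S', ∀ b ∈ S', a * b = b * a) → ∀ r : ℕ, ∃ N₀ : ℕ, ∀ N ≥ N₀, ∀ u ∈ S, ∀ g : G,
    Small p M r (∑ᶠ e ∈ BB M (cz S), Lam M D θ l u (rep M (cz S) e) * ev ψ (cvp (rsk (cz S') e) (p ^ N)) g -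
      ∑ᶠ η' ∈ IrrOn (cz S'), Lam M D θ l u η' * ev ψ (eS (cz S') {η'}) g)

/-! ## 3. The sums over the tuples -/

/-- **ABD** (medium; from LLI, REP and `FRB_orb`). Divisibility. Proof: `A` (the group) acts by conjugation on the finite type `Z = {t : Fin q → G // st A t = S}` (`A` is abelian: `st A (a t a⁻¹) = st A t`), the stabiliser of `t` is the subgroup of the `a ∈ A` which commute with all `t i`, `Nat.card (stabilizer) = Nat.card S`. `T t = ∑_{u ∈ S} ..` is invariant: `e ∈ BB M (cz S)` is a class function of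
`cz S` and `a ∈ A ≤ cz S`, so `e (a t_i a⁻¹) = e (t_i)` (if `t_i ∉ cz S` both are `0`), the product of the tuple `a t a⁻¹` is `a (∏ t) a⁻¹`, and `ψ (u w a g a⁻¹) = ψ (u w g)` because `a` commutes with `u` and `w`. `T t / |S| = ∑_e ∏ e (t i) * (|S|⁻¹ ∑_{u ∈ S} k u * Lam u (rep e) * ψ (u c))`, `c = w * t_1 ⋯ t_q ∈ cz S` (`S = st A t` commutes with all `t i`): `IntAt` by LLI, REP (4).
`FRB_orb`. -/
def ABD_stmt : Prop :=
  ∀ (p : ℕ) (M : Ideal (integralClosure ℤ ℂ)), Setup p M → ∀ (G : Type) [Group G] [Finite G]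
    (D : Subgroup G) (x : G) (θ χ : G → ℂ), LoA p M D x θ χ → ∀ l : D →* ℂˣ, ∀ ψ ∈ IrrOn (⊤ : Subgroup G), ∀ A : Subgroup G,
    IsPGroup p A → (∀ a ∈ A, ∀ b ∈ A, a * b = b * a) → ∀ w ∈ cz A, ∀ k : G → ℂ, LC A k → ∀ S ≤ A, ∀ q : ℕ,
    IntAt M ((∑ᶠ t ∈ {t : Fin q → G | st A t = S}, ∑ᶠ u ∈ (S : Set G), k u * Wt M D θ l S u t * ψ (u * w * (List.ofFn t).prod)) /
      Nat.card A)

/-- **ABS** (medium; from UPS, UPR, TUP). Comparison. Proof: `q = p ^ N`, `f S'' = ∑_{t : st A t = S''} ∑_{u ∈ S} k u * Wt (zpowers u) u t * ψ (u w ∏ t)`, `g S''` the same with `Wt S u t`; the number is `f S - g S`. UPS. For `S ≤ S' ≤ A` the sum of the `f S''`, `S' ≤ S'' ≤ A`, is the sum over the `t` with `S' ≤ st A t` (`st A t ≤ A` always), that is all `t i ∈ cz S'`. For such `t`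
`∏ e (t i) = ∏ (rsk (cz S') e) (t i)`, and the right side is `0` for the other `t`, so by TUP (`a = rsk (cz S') e`, `F y = ψ (u w y)`) the sum is `∑_{u ∈ S} k u * ∑_{e ∈ BB M (cz (zpowers u))} Lam u (rep e) * ev ψ (cvp (rsk (cz S') e) q) (u w)`, in the same way for `g` with `S` in place of `zpowers u`. By UPR (for the pairs `(zpowers u, S')`, `u ∈ S`, and `(S, S')`, all `S'`;
`N₀` the maximum) both are congruent to `∑_{u ∈ S} k u * ∑_{η'} ..` (`k u` is a root of unity: integral). -/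
def ABS_stmt : Prop :=
  ∀ (p : ℕ) (M : Ideal (integralClosure ℤ ℂ)), Setup p M → ∀ (G : Type) [Group G] [Finite G]
    (D : Subgroup G) (x : G) (θ χ : G → ℂ), LoA p M D x θ χ → ∀ l : D →* ℂˣ, ∀ ψ ∈ IrrOn (⊤ : Subgroup G), ∀ A : Subgroup G,
    IsPGroup p A → (∀ a ∈ A, ∀ b ∈ A, a * b = b * a) → ∀ w ∈ cz A, ∀ k : G → ℂ, LC A k → ∀ S ≤ A, ∀ r : ℕ, ∃ N₀ : ℕ, ∀ N ≥ N₀,
    Small p M r ((∑ᶠ t ∈ {t : Fin (p ^ N) → G | st A t = S}, ∑ᶠ u ∈ (S : Set G), k u * Wt M D θ l (Subgroup.zpowers u) u t *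
        ψ (u * w * (List.ofFn t).prod)) -
      ∑ᶠ t ∈ {t : Fin (p ^ N) → G | st A t = S}, ∑ᶠ u ∈ (S : Set G), k u * Wt M D θ l S u t * ψ (u * w * (List.ofFn t).prod))

/-- **ABZ** (medium; from THB, REP, ABS, ABD). The sum. Proof: `|A| = p ^ r`; `N` such that ABS holds for all `S ≤ A` and this `r`; `q = p ^ N ≥ 1`. For `u ∈ A`: `w ∈ Cz ⊤ u`; THB; `e = cvp e q` for `e ∈ BB` (REP (4), induction), so by TUF `ev ψ e (u w) = ∑_t ∏ e (t i) * ψ (u w ∏ t)`, only the `t` with all `t i ∈ Cz ⊤ u`, that is `u ∈ st A t`, contribute. With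
`Cz ⊤ u = cz (zpowers u)` (`cz_zp`): `∑_{u ∈ A} k u * TH u w = ∑_t ∑_{u ∈ st A t} k u * Wt (zpowers u) u t * ψ (u w ∏ t) = ∑_{S ≤ A} ∑_{t : st A t = S} ∑_{u ∈ S} ..`. By ABS this is modulo `Small r` the same sum with `Wt S u t`, which is `|A|` times `IntAt` by ABD; divide by `|A| = p ^ r`. -/
def ABZ_stmt : Prop :=
  ∀ (p : ℕ) (M : Ideal (integralClosure ℤ ℂ)), Setup p M → ∀ (G : Type) [Group G] [Finite G]
    (D : Subgroup G) (x : G) (θ χ : G → ℂ), LoA p M D x θ χ → ∀ l : D →* ℂˣ, ∀ ψ ∈ IrrOn (⊤ : Subgroup G), ∀ A : Subgroup G,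
    IsPGroup p A → (∀ a ∈ A, ∀ b ∈ A, a * b = b * a) → ∀ w ∈ cz A, ∀ k : G → ℂ, LC A k →
    IntAt M ((∑ᶠ u ∈ (A : Set G), k u * TH M D θ l ψ u w) / Nat.card A)

/-- **ABL** (THE OUTPUT, `ABL_stmt` of `DefsT`): ABZ for `k = lx A κ`. -/
theorem ABL (hABZ : ABZ_stmt) : ABL_stmt := by
  intro p M hM G _ _ D x θ χ h l ψ hψ A hA com w hw _ κ
  have hk : LC A (lx A κ) := by
    refine ⟨?_, fun u hu v hv => ?_⟩
    · unfold lx
      rw [dif_pos A.one_mem]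
      have h1 : (⟨1, A.one_mem⟩ : A) = 1 := rfl
      rw [h1, map_one, Units.val_one]
    · unfold lx
      rw [dif_pos hu, dif_pos hv, dif_pos (A.mul_mem hu hv)]
      have h1 : (⟨u * v, A.mul_mem hu hv⟩ : A) = ⟨u, hu⟩ * ⟨v, hv⟩ := rfl
      rw [h1, map_mul, Units.val_mul]
  have h1 := hABZ p M hM G D x θ χ h l ψ hψ.1 A hA com w hw (lx A κ) hk
  have h2 : ∑ᶠ u ∈ (A : Set G), lx A κ u * TH M D θ l ψ u w = ∑ᶠ u : A, TH M D θ l ψ u w * (κ u : ℂ) := by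
    rw [← finsum_set_coe_eq_finsum_mem]
    refine finsum_congr fun u => ?_
    have h3 : lx A κ (u : G) = (κ u : ℂ) := by
      unfold lx
      rw [dif_pos (show (u : G) ∈ A from u.2)]
      rfl
    rw [h3, mul_comm]
  rwa [h2] at h1

end Pool.Agent.BR
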