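import Pool.Agent.helper34.BR.ABD
import Pool.Agent.helper14.BR.ABS
import Pool.Agent.helper96.BR.ABZ
import Pool.Agent.helper87.BR.REP
import Pool.Agent.helper21.BR.SPC
import Pool.Agent.helper6.BR.UPR
import Pool.Agent.helper38.BR.LLI

set_option autoImplicit false

namespace Pool.Agent.BR

open Pool.Agent.helper58.DC Pool.Agent.DI Pool.Agent.GR Pool.Agent.OB Pool.Agent.DR Pool.Agent.FI Pool.Agent.FI3 Pool.Agent.FI4 Pool.Agent.LE

theorem ABZ_all (hLAM : LAM_stmt) (hTHB : THB_stmt) (hQEV : QEV_stmt) (hB2 : B2_stmt) (hBLE : BLE_stmt)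
    (hPRD : PRD_stmt) (hEQR : EQR_stmt) (hEXB : EXB_stmt) (hCVF : CVF_stmt) : ABZ_stmt :=
  have hREP := REP hB2 hBLE
  have hLLI := LLI hLAM (SPC hQEV)
  have hABS := ABS (UPR hPRD hEQR hBLE hREP hLLI hEXB hCVF) hREP
  ABZ hTHB hREP hABS (ABD hLLI hREP)

end Pool.Agent.BR
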